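import Mathlib

set_option autoImplicit false

open Filter Topology Matrix

namespace Pool.Agent.H437R2.Man.MW

section canon

variable {A : Type} [AddCommGroup A]

/-- canonical height. -/
theorem canon (h : A → ℝ) (C : ℝ) (h0 : ∀ P, 0 ≤ h P)
    (hC : ∀ P Q, |h (P + Q) + h (P - Q) - 2 * (h P + h Q)| ≤ C) :
    ∃ (q : A → ℝ) (C' : ℝ), (∀ P, |q P - h P| ≤ C') ∧ (∀ P, 0 ≤ q P) ∧
      ∀ P Q, q (P + Q) + q (P - Q) = 2 * (q P + q Q) := by
  set C1 : ℝ := C + |h 0| with hC1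
  have hC0 : 0 ≤ C := (abs_nonneg _).trans (hC 0 0)
  have hC10 : 0 ≤ C1 := by positivity
  have hdbl : ∀ P : A, |h (P + P) - 4 * h P| ≤ C1 := by
    intro P
    have h1 := hC P P
    rw [sub_self] at h1
    have h2 : h (P + P) - 4 * h P = (h (P + P) + h 0 - 2 * (h P + h P)) - h 0 := by ring
    rw [h2]
    exact (abs_sub _ _).trans (by linarith)
  have hsm : ∀ (P : A) (k : ℕ), (2 ^ (k + 1) : ℕ) • P = (2 ^ k : ℕ) • P + (2 ^ k : ℕ) • P := by
    intro P k
    rw [pow_succ, mul_comm, mul_smul, two_smul]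
  have hstep : ∀ (P : A) (k : ℕ),
      dist (h ((2 ^ k : ℕ) • P) / 4 ^ k) (h ((2 ^ (k + 1) : ℕ) • P) / 4 ^ (k + 1)) ≤
        C1 / 4 * (1 / 4) ^ k := by
    intro P k
    rw [dist_comm, Real.dist_eq, hsm P k]
    have h2 := hdbl ((2 ^ k : ℕ) • P)
    have h3 : h ((2 ^ k : ℕ) • P + (2 ^ k : ℕ) • P) / 4 ^ (k + 1) - h ((2 ^ k : ℕ) • P) / 4 ^ k =
        (h ((2 ^ k : ℕ) • P + (2 ^ k : ℕ) • P) - 4 * h ((2 ^ k : ℕ) • P)) / 4 ^ (k + 1) := by
      field_simp
      ring
    rw [h3, abs_div, abs_of_pos (by positivity : (0 : ℝ) < 4 ^ (k + 1))]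
    have h4 : C1 / 4 * (1 / 4) ^ k = C1 / 4 ^ (k + 1) := by
      rw [_root_.one_div_pow]
      field_simp
      ring
    rw [h4]
    exact div_le_div_of_nonneg_right h2 (by positivity)
  have hr : (1 / 4 : ℝ) < 1 := by norm_num
  have hlim : ∀ P : A, ∃ b : ℝ, Filter.Tendsto (fun k : ℕ => h ((2 ^ k : ℕ) • P) / 4 ^ k)
      Filter.atTop (nhds b) := fun P =>
    cauchySeq_tendsto_of_complete (cauchySeq_of_le_geometric _ _ hr (hstep P))
  choose b hb using hlim
  refine ⟨b, C1 / 3, ?_, ?_, ?_⟩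
  · intro P
    have h1 := dist_le_of_le_geometric_of_tendsto₀ _ _ hr (hstep P) (hb P)
    simp only [pow_zero, one_smul, div_one] at h1
    rw [dist_comm, Real.dist_eq] at h1
    refine h1.trans (le_of_eq ?_)
    norm_num
    ring
  · intro P
    exact ge_of_tendsto' (hb P) (fun k => div_nonneg (h0 _) (by positivity))
  · intro P Q
    have h1 : Filter.Tendsto (fun k : ℕ => h ((2 ^ k : ℕ) • (P + Q)) / 4 ^ k +
        h ((2 ^ k : ℕ) • (P - Q)) / 4 ^ k -
        2 * (h ((2 ^ k : ℕ) • P) / 4 ^ k + h ((2 ^ k : ℕ) • Q) / 4 ^ k))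
        Filter.atTop (nhds (b (P + Q) + b (P - Q) - 2 * (b P + b Q))) :=
      ((hb _).add (hb _)).sub (((hb _).add (hb _)).const_mul 2)
    have h2 : Filter.Tendsto (fun k : ℕ => h ((2 ^ k : ℕ) • (P + Q)) / 4 ^ k +
        h ((2 ^ k : ℕ) • (P - Q)) / 4 ^ k -
        2 * (h ((2 ^ k : ℕ) • P) / 4 ^ k + h ((2 ^ k : ℕ) • Q) / 4 ^ k))
        Filter.atTop (nhds 0) := by
      have h3 : Filter.Tendsto (fun k : ℕ => C * (1 / 4 : ℝ) ^ k) Filter.atTop (nhds (C * 0)) :=
        (tendsto_pow_atTop_nhds_zero_of_lt_one (by norm_num) hr).const_mul C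
      rw [mul_zero] at h3
      refine squeeze_zero_norm (fun k => ?_) h3
      have h4 := hC ((2 ^ k : ℕ) • P) ((2 ^ k : ℕ) • Q)
      rw [← smul_add, ← smul_sub] at h4
      have h5 : h ((2 ^ k : ℕ) • (P + Q)) / 4 ^ k +
        h ((2 ^ k : ℕ) • (P - Q)) / 4 ^ k -
        2 * (h ((2 ^ k : ℕ) • P) / 4 ^ k + h ((2 ^ k : ℕ) • Q) / 4 ^ k) =
        (h ((2 ^ k : ℕ) • (P + Q)) + h ((2 ^ k : ℕ) • (P - Q)) -
          2 * (h ((2 ^ k : ℕ) • P) + h ((2 ^ k : ℕ) • Q))) / 4 ^ k := by ring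
      rw [h5, Real.norm_eq_abs, abs_div, abs_of_pos (by positivity : (0 : ℝ) < 4 ^ k),
        _root_.one_div_pow, mul_one_div]
      exact div_le_div_of_nonneg_right h4 (by positivity)
    have := tendsto_nhds_unique h1 h2
    linarith

/-- the biadditive form attached to a function satisfying the parallelogram law. -/
theorem polar (q : A → ℝ) (hq : ∀ P Q, q (P + Q) + q (P - Q) = 2 * (q P + q Q)) :
    ∃ B : A →+ A →+ ℝ, (∀ P, B P P = q P) ∧ ∀ P Q, B P Q = B Q P := by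
  have q0 : q 0 = 0 := by
    have := hq 0 0
    rw [add_zero, sub_zero] at this
    linarith
  have qneg : ∀ P, q (-P) = q P := by
    intro P
    have := hq 0 P
    rw [zero_add, zero_sub, q0] at this
    linarith
  have key : ∀ P Q R, q (P + Q + R) = q (P + Q) + q (P + R) + q (Q + R) - q P - q Q - q R := by
    intro P Q R
    have a1 := hq (P + Q) R
    have a2 := hq P (Q - R)
    have a3 := hq (P + R) Q
    have a4 := hq Q R
    have e1 : P + Q - R = P + (Q - R) := by abel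
    have e2 : P - (Q - R) = P + R - Q := by abel
    have e3 : P + R + Q = P + Q + R := by abel
    rw [e1] at a1
    rw [e2] at a2
    rw [e3] at a3
    linarith
  let f : A → A → ℝ := fun P Q => (q (P + Q) - q P - q Q) / 2
  have hf1 : ∀ P Q R, f (P + Q) R = f P R + f Q R := by
    intro P Q R
    simp only [f]
    rw [key P Q R]
    ring
  have hf2 : ∀ P Q, f P Q = f Q P := by
    intro P Q
    simp only [f]
    rw [add_comm P Q]
    ring
  let B : A →+ A →+ ℝ := AddMonoidHom.mk' (fun P => AddMonoidHom.mk' (fun Q => f P Q)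
    (fun Q R => by rw [hf2, hf1, hf2 Q, hf2 R])) (fun P Q => by
      ext R
      exact hf1 P Q R)
  refine ⟨B, ?_, ?_⟩
  · intro P
    change f P P = q P
    have := hq P P
    rw [sub_self, q0] at this
    simp only [f]
    linarith
  · intro P Q
    exact hf2 P Q

end canon

lemma tendsto_floor_mul_div (x : ℝ) :
    Tendsto (fun N : ℕ => (⌊(N : ℝ) * x⌋ : ℝ) / N) atTop (𝓝 x) := by
  rw [tendsto_iff_norm_sub_tendsto_zero]
  refine squeeze_zero' (Eventually.of_forall fun N => norm_nonneg _) ?_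
    (tendsto_const_div_atTop_nhds_zero_nat (1 : ℝ))
  filter_upwards [eventually_gt_atTop 0] with N hN
  have hN' : (0 : ℝ) < N := by exact_mod_cast hN
  have h1 := Int.floor_le ((N : ℝ) * x)
  have h2 := Int.lt_floor_add_one ((N : ℝ) * x)
  rw [Real.norm_eq_abs, show (⌊(N : ℝ) * x⌋ : ℝ) / N - x = ((⌊(N : ℝ) * x⌋ : ℝ) - N * x) / N by
    field_simp, abs_div, abs_of_pos hN']
  apply div_le_div_of_nonneg_right _ hN'.le
  rw [abs_le]
  constructor <;> linarith

/-- a real symmetric matrix nonnegative on integer vectors is positive semidefinite. -/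
lemma posSemidef_of_int {n : ℕ} (G : Matrix (Fin n) (Fin n) ℝ) (hG : ∀ i j, G i j = G j i)
    (hp : ∀ c : Fin n → ℤ, 0 ≤ ∑ i, ∑ j, (c i : ℝ) * (c j : ℝ) * G i j) : G.PosSemidef := by
  apply Matrix.PosSemidef.of_dotProduct_mulVec_nonneg
  · ext i j
    simp [hG i j]
  · intro x
    have h1 : star x ⬝ᵥ (G *ᵥ x) = ∑ i, ∑ j, x i * x j * G i j := by
      simp only [dotProduct, mulVec, star_trivial]
      apply Finset.sum_congr rfl
      intro i _
      rw [Finset.mul_sum]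
      apply Finset.sum_congr rfl
      intro j _
      ring
    rw [h1]
    have h2 : Tendsto (fun N : ℕ => ∑ i, ∑ j, ((⌊(N : ℝ) * x i⌋ : ℝ) / N) *
        ((⌊(N : ℝ) * x j⌋ : ℝ) / N) * G i j) atTop (𝓝 (∑ i, ∑ j, x i * x j * G i j)) := by
      apply tendsto_finsetSum
      intro i _
      apply tendsto_finsetSum
      intro j _
      exact ((tendsto_floor_mul_div (x i)).mul (tendsto_floor_mul_div (x j))).mul_const _
    refine ge_of_tendsto' h2 (fun N => ?_)
    have h3 := hp (fun i => ⌊(N : ℝ) * x i⌋)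
    have h4 : ∑ i, ∑ j, ((⌊(N : ℝ) * x i⌋ : ℝ) / N) * ((⌊(N : ℝ) * x j⌋ : ℝ) / N) * G i j =
        (∑ i, ∑ j, (⌊(N : ℝ) * x i⌋ : ℝ) * (⌊(N : ℝ) * x j⌋ : ℝ) * G i j) / (N : ℝ) ^ 2 := by
      rw [Finset.sum_div]
      apply Finset.sum_congr rfl
      intro i _
      rw [Finset.sum_div]
      apply Finset.sum_congr rfl
      intro j _
      ring
    rw [h4]
    exact div_nonneg h3 (by positivity)

lemma exists_factor {n : ℕ} (G : Matrix (Fin n) (Fin n) ℝ) (hG : G.PosSemidef) :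
    ∃ M : Matrix (Fin n) (Fin n) ℝ, G = Mᴴ * M := by
  open scoped MatrixOrder in
  exact CStarAlgebra.nonneg_iff_eq_star_mul_self.mp hG.nonneg

/-- embedding of a finitely generated group with a quadratic form. -/
theorem embed {A : Type} [AddCommGroup A] (hA : AddGroup.FG A) (q : A → ℝ)
    (hq0 : ∀ P, 0 ≤ q P)
    (hq : ∀ P Q, q (P + Q) + q (P - Q) = 2 * (q P + q Q)) :
    ∃ (n : ℕ) (ψ : A →+ EuclideanSpace ℝ (Fin n)), ∀ P, ‖ψ P‖ ^ 2 = q P := by
  obtain ⟨B, hB1, hB2⟩ := polar q hq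
  have : Module.Finite ℤ A := Module.Finite.iff_addGroup_fg.mpr hA
  obtain ⟨n, f, hf⟩ := Module.Finite.exists_fin' ℤ A
  set g : Fin n → A := fun i => f (Pi.single i 1) with hg
  have hfc : ∀ c : Fin n → ℤ, f c = ∑ i, c i • g i := by
    intro c
    conv_lhs => rw [← Finset.univ_sum_single c]
    rw [map_sum]
    apply Finset.sum_congr rfl
    intro i _
    rw [hg]
    simp only
    rw [← map_zsmul]
    congr 1
    ext j
    by_cases hij : j = i
    · subst hij; simp
    · simp [hij]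
  set G : Matrix (Fin n) (Fin n) ℝ := fun i j => B (g i) (g j) with hG
  have hqf : ∀ c : Fin n → ℤ, q (f c) = ∑ i, ∑ j, (c i : ℝ) * (c j : ℝ) * G i j := by
    intro c
    rw [← hB1, hfc]
    simp only [map_sum, map_zsmul, AddMonoidHom.finsetSum_apply, AddMonoidHom.smul_apply]
    rw [Finset.sum_comm]
    apply Finset.sum_congr rfl
    intro i _
    rw [Finset.smul_sum]
    apply Finset.sum_congr rfl
    intro j _
    simp only [hG, zsmul_eq_mul]
    ring
  have hps : G.PosSemidef := by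
    apply posSemidef_of_int
    · intro i j; exact hB2 _ _
    · intro c
      rw [← hqf]
      exact hq0 _
  obtain ⟨M, hM⟩ := exists_factor G hps
  let φ : (Fin n → ℤ) →+ EuclideanSpace ℝ (Fin n) := AddMonoidHom.mk'
    (fun c => WithLp.toLp 2 (M *ᵥ (fun i => (c i : ℝ)))) (by
      intro a b
      have : (fun i => (((a + b) i : ℤ) : ℝ)) = (fun i => (a i : ℝ)) + (fun i => (b i : ℝ)) := by
        ext i; simp
      rw [this, Matrix.mulVec_add, WithLp.toLp_add])
  have hφ : ∀ c, ‖φ c‖ ^ 2 = q (f c) := by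
    intro c
    rw [EuclideanSpace.norm_sq_eq, hqf]
    have h1 : ∑ i, ∑ j, (c i : ℝ) * (c j : ℝ) * G i j =
        (fun i => (c i : ℝ)) ⬝ᵥ (G *ᵥ (fun i => (c i : ℝ))) := by
      simp only [dotProduct, mulVec]
      apply Finset.sum_congr rfl
      intro i _
      rw [Finset.mul_sum]
      apply Finset.sum_congr rfl
      intro j _
      ring
    rw [h1, hM, ← Matrix.mulVec_mulVec, Matrix.dotProduct_mulVec, Matrix.vecMul_conjTranspose]
    simp only [dotProduct, star_trivial, Real.norm_eq_abs, sq_abs]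
    apply Finset.sum_congr rfl
    intro i _
    change (M *ᵥ (fun i => (c i : ℝ))) i ^ 2 = _
    ring
  have hker : (f.toAddMonoidHom).ker ≤ φ.ker := by
    intro c hc
    rw [AddMonoidHom.mem_ker] at hc ⊢
    have hc' : f c = 0 := hc
    have h1 := hφ c
    have q0 : q 0 = 0 := by rw [← hB1]; simp
    rw [hc', q0] at h1
    exact norm_eq_zero.mp (pow_eq_zero_iff (two_ne_zero) |>.mp h1)
  let ψ : A →+ EuclideanSpace ℝ (Fin n) :=
    AddMonoidHom.liftOfSurjective f.toAddMonoidHom hf ⟨φ, hker⟩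
  refine ⟨n, ψ, fun P => ?_⟩
  obtain ⟨c, rfl⟩ := hf P
  have h1 : ψ (f c) = φ c :=
    AddMonoidHom.liftOfRightInverse_comp_apply f.toAddMonoidHom _ _ ⟨φ, hker⟩ c
  rw [h1, hφ]

end Pool.Agent.H437R2.Man.MW
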