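import Mathlib
import Pool.Agent.H16.LA.S8.H437R2.Man.MWPar
import Pool.Agent.H16.LA.S8.H437R2.Man.MWSel

set_option autoImplicit false

open WeierstrassCurve Height IsDedekindDomain NumberField

namespace Pool.Agent.H437R2.Man.MW

variable {K : Type} [Field K] [NumberField K]

lemma finite_val_ne_one (k : K) (hk : k ≠ 0) :
    {v : HeightOneSpectrum (𝓞 K) | v.valuation K k ≠ 1}.Finite := by
  apply Set.Finite.subset ((HeightOneSpectrum.Support.finite (𝓞 K) k).union
    (HeightOneSpectrum.Support.finite (𝓞 K) k⁻¹))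
  intro v hv
  rcases lt_or_gt_of_ne hv with h | h
  · right
    change 1 < v.valuation K k⁻¹
    rw [map_inv₀]
    exact (one_lt_inv₀ (by
      rw [zero_lt_iff]
      exact (Valuation.ne_zero_iff _).mpr hk)).mpr h
  · left
    exact h

lemma toAdd_eq_of_val_eq (v : HeightOneSpectrum (𝓞 K)) (a b : Kˣ)
    (h : v.valuation K (a : K) = v.valuation K (b : K)) :
    v.valuationOfNeZero a = v.valuationOfNeZero b := by
  rw [← v.valuationOfNeZero_eq, ← v.valuationOfNeZero_eq] at h
  exact WithZero.coe_injective h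

lemma even_ord (v : HeightOneSpectrum (𝓞 K)) (a b c y : Kˣ) (habc : a * b * c = y ^ 2)
    (hab : v.valuation K ((b : K) - a) = 1) (hac : v.valuation K ((c : K) - a) = 1) :
    Even (Multiplicative.toAdd (v.valuationOfNeZero a)) := by
  have hb : (b : K) = a + (b - a) := by ring
  have hc : (c : K) = a + (c - a) := by ring
  have hs := congrArg (fun u => Multiplicative.toAdd (v.valuationOfNeZero u)) habc
  simp only [map_mul, map_pow, toAdd_mul, toAdd_pow] at hs
  rcases lt_trichotomy (v.valuation K (a : K)) 1 with h | h | h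
  · have h1 : v.valuation K (b : K) = v.valuation K ((1 : Kˣ) : K) := by
      rw [hb, Valuation.map_add_eq_of_lt_right _ (by rw [hab]; exact h), hab]
      simp
    have h2 : v.valuation K (c : K) = v.valuation K ((1 : Kˣ) : K) := by
      rw [hc, Valuation.map_add_eq_of_lt_right _ (by rw [hac]; exact h), hac]
      simp
    rw [toAdd_eq_of_val_eq v b 1 h1, toAdd_eq_of_val_eq v c 1 h2, map_one, toAdd_one, add_zero,
      add_zero] at hs
    rw [hs, nsmul_eq_mul]
    exact even_two.mul_right _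
  · have h1 : v.valuation K (a : K) = v.valuation K ((1 : Kˣ) : K) := by
      rw [h]; simp
    rw [toAdd_eq_of_val_eq v a 1 h1, map_one, toAdd_one]
    exact Even.zero
  · have h1 : v.valuation K (b : K) = v.valuation K (a : K) := by
      rw [hb, Valuation.map_add_eq_of_lt_left _ (by rw [hab]; exact h)]
    have h2 : v.valuation K (c : K) = v.valuation K (a : K) := by
      rw [hc, Valuation.map_add_eq_of_lt_left _ (by rw [hac]; exact h)]
    rw [toAdd_eq_of_val_eq v b a h1, toAdd_eq_of_val_eq v c a h2, nsmul_eq_mul] at hs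
    have h3 : Multiplicative.toAdd (v.valuationOfNeZero a) =
        2 * (Multiplicative.toAdd (v.valuationOfNeZero y) -
          Multiplicative.toAdd (v.valuationOfNeZero a)) := by
      push_cast at hs
      linarith
    rw [h3]
    exact even_two.mul_right _

lemma crv_class {e1 e2 e3 : K} (h12 : e1 ≠ e2) (h13 : e1 ≠ e3) (h23 : e2 ≠ e3) :
    ∃ T : Finset K, (∀ t ∈ T, t ≠ 0) ∧ ∀ x y : K, y ≠ 0 →
      y ^ 2 = (x + e1) * (x + e2) * (x + e3) →
      ∃ t1 ∈ T, ∃ t2 ∈ T, ∃ t3 ∈ T, ∃ r1 r2 r3 : K, r1 ≠ 0 ∧ r2 ≠ 0 ∧ r3 ≠ 0 ∧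
        x + e1 = t1 * r1 ^ 2 ∧ x + e2 = t2 * r2 ^ 2 ∧ x + e3 = t3 * r3 ^ 2 := by
  have h12' := sub_ne_zero.mpr h12
  have h13' := sub_ne_zero.mpr h13
  have h23' := sub_ne_zero.mpr h23
  set S : Set (HeightOneSpectrum (𝓞 K)) := {v | v.valuation K (e1 - e2) ≠ 1} ∪
    {v | v.valuation K (e1 - e3) ≠ 1} ∪ {v | v.valuation K (e2 - e3) ≠ 1} with hSdef
  have hS : S.Finite := ((finite_val_ne_one _ h12').union (finite_val_ne_one _ h13')).union
    (finite_val_ne_one _ h23')
  obtain ⟨T, hT0, hT⟩ := sel_finite S hS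
  refine ⟨T, hT0, fun x y hy hxy => ?_⟩
  have hprod : (x + e1) * (x + e2) * (x + e3) ≠ 0 := by
    rw [← hxy]; exact pow_ne_zero _ hy
  have ha : x + e1 ≠ 0 := fun h => hprod (by rw [h]; ring)
  have hb : x + e2 ≠ 0 := fun h => hprod (by rw [h]; ring)
  have hc : x + e3 ≠ 0 := fun h => hprod (by rw [h]; ring)
  have hvS : ∀ v : HeightOneSpectrum (𝓞 K), v ∉ S → v.valuation K (e1 - e2) = 1 ∧
      v.valuation K (e1 - e3) = 1 ∧ v.valuation K (e2 - e3) = 1 := by
    intro v hv
    simp only [hSdef, Set.mem_union, not_or] at hv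
    exact ⟨not_not.mp hv.1.1, not_not.mp hv.1.2, not_not.mp hv.2⟩
  obtain ⟨t1, ht1, r1, hr1, w1⟩ := hT (Units.mk0 _ ha) (by
    intro v hv
    obtain ⟨v1, v2, v3⟩ := hvS v hv
    apply even_ord v (Units.mk0 _ ha) (Units.mk0 _ hb) (Units.mk0 _ hc) (Units.mk0 _ hy)
    · apply Units.ext; simp [hxy]
    · simp only [Units.val_mk0]
      rw [← v1, ← Valuation.map_neg]; congr 1; ring
    · simp only [Units.val_mk0]
      rw [← v2, ← Valuation.map_neg]; congr 1; ring)
  obtain ⟨t2, ht2, r2, hr2, w2⟩ := hT (Units.mk0 _ hb) (by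
    intro v hv
    obtain ⟨v1, v2, v3⟩ := hvS v hv
    apply even_ord v (Units.mk0 _ hb) (Units.mk0 _ ha) (Units.mk0 _ hc) (Units.mk0 _ hy)
    · apply Units.ext
      simp only [Units.val_mul, Units.val_pow_eq_pow_val, Units.val_mk0]
      rw [hxy]; ring
    · simp only [Units.val_mk0]
      rw [← v1]; congr 1; ring
    · simp only [Units.val_mk0]
      rw [← v3, ← Valuation.map_neg]; congr 1; ring)
  obtain ⟨t3, ht3, r3, hr3, w3⟩ := hT (Units.mk0 _ hc) (by
    intro v hv
    obtain ⟨v1, v2, v3⟩ := hvS v hv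
    apply even_ord v (Units.mk0 _ hc) (Units.mk0 _ ha) (Units.mk0 _ hb) (Units.mk0 _ hy)
    · apply Units.ext
      simp only [Units.val_mul, Units.val_pow_eq_pow_val, Units.val_mk0]
      rw [hxy]; ring
    · simp only [Units.val_mk0]
      rw [← v2]; congr 1; ring
    · simp only [Units.val_mk0]
      rw [← v3]; congr 1; ring)
  exact ⟨t1, ht1, t2, ht2, t3, ht3, r1, r2, r3, hr1, hr2, hr3, w1, w2, w3⟩

/-- class relation -/
def Cl (e1 e2 e3 : K) (c : K × K × K) (P : Pt e1 e2 e3) : Prop :=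
  ∃ (x y : K) (h : (crv e1 e2 e3).toAffine.Nonsingular x y), P = Affine.Point.some x y h ∧
    ∃ r1 r2 r3 : K, r1 ≠ 0 ∧ r2 ≠ 0 ∧ r3 ≠ 0 ∧
      x + e1 = c.1 * r1 ^ 2 ∧ x + e2 = c.2.1 * r2 ^ 2 ∧ x + e3 = c.2.2 * r3 ^ 2

theorem descent_set [DecidableEq K] {e1 e2 e3 : K} (q12 : e1 ≠ e2) (q13 : e1 ≠ e3)
    (q23 : e2 ≠ e3) :
    ∃ U : Finset (Pt e1 e2 e3), ∀ P : Pt e1 e2 e3, ∃ u ∈ U, ∃ Q : Pt e1 e2 e3,
      P = u + (Q + Q) := by
  obtain ⟨T0, hT0, hT⟩ := crv_class q12 q13 q23
  let T : Finset (K × K × K) := T0 ×ˢ T0 ×ˢ T0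
  classical
  let rep : K × K × K → Pt e1 e2 e3 := fun c =>
    if h : ∃ P, Cl e1 e2 e3 c P then -(Classical.choose h) else 0
  have hT1 : (crv e1 e2 e3).toAffine.Nonsingular (-e1) 0 := by
    apply crv_nonsing q12 q13 q23; ring
  have hT2 : (crv e1 e2 e3).toAffine.Nonsingular (-e2) 0 := by
    apply crv_nonsing q12 q13 q23; ring
  have hT3 : (crv e1 e2 e3).toAffine.Nonsingular (-e3) 0 := by
    apply crv_nonsing q12 q13 q23; ring
  let S : Finset (Pt e1 e2 e3) :=
    {0, Affine.Point.some _ _ hT1, Affine.Point.some _ _ hT2, Affine.Point.some _ _ hT3}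
  refine ⟨T.image rep ∪ S, fun P => ?_⟩
  match P with
  | 0 =>
    refine ⟨0, ?_, 0, by simp⟩
    apply Finset.mem_union_right
    simp [S]
  | .some x y h =>
    have q := crv_eqn.mp h.1
    by_cases hy : y = 0
    · subst hy
      have hq : (x + e1) * (x + e2) * (x + e3) = 0 := by rw [← q]; ring
      rcases mul_eq_zero.mp hq with hq' | hq'
      · rcases mul_eq_zero.mp hq' with hq'' | hq''
        · have hx : x = -e1 := by linear_combination hq''
          subst hx
          refine ⟨Affine.Point.some _ _ hT1, ?_, 0, by simp⟩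
          apply Finset.mem_union_right
          simp [S]
        · have hx : x = -e2 := by linear_combination hq''
          subst hx
          refine ⟨Affine.Point.some _ _ hT2, ?_, 0, by simp⟩
          apply Finset.mem_union_right
          simp [S]
      · have hx : x = -e3 := by linear_combination hq'
        subst hx
        refine ⟨Affine.Point.some _ _ hT3, ?_, 0, by simp⟩
        apply Finset.mem_union_right
        simp [S]
    · obtain ⟨c1, d1, c2, d2, c3, d3, r1, r2, r3, m1, m2, m3, w1, w2, w3⟩ := hT x y hy q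
      have hcl : Cl e1 e2 e3 (c1, c2, c3) (Affine.Point.some x y h) :=
        ⟨x, y, h, rfl, r1, r2, r3, m1, m2, m3, w1, w2, w3⟩
      have hex : ∃ P, Cl e1 e2 e3 (c1, c2, c3) P := ⟨_, hcl⟩
      have hrep : rep (c1, c2, c3) = -(Classical.choose hex) := by
        simp only [rep]
        rw [dif_pos hex]
      have hspec := Classical.choose_spec hex
      set R := Classical.choose hex with hR
      obtain ⟨x', y', h', hR', r1', r2', r3', m1', m2', m3', w1', w2', w3'⟩ := hspec
      have n1 := hT0 c1 d1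
      have n2 := hT0 c2 d2
      have n3 := hT0 c3 d3
      obtain ⟨Q, hQ⟩ := add_double (r1 := c1 * r1 * r1') (r2 := c2 * r2 * r2') (r3 := c3 * r3 * r3')
        q12 q13 q23 h h'
        (mul_ne_zero (mul_ne_zero n1 m1) m1')
        (mul_ne_zero (mul_ne_zero n2 m2) m2')
        (mul_ne_zero (mul_ne_zero n3 m3) m3')
        (by rw [w1, w1']; ring) (by rw [w2, w2']; ring) (by rw [w3, w3']; ring)
      refine ⟨rep (c1, c2, c3), ?_, Q, ?_⟩
      · apply Finset.mem_union_left
        apply Finset.mem_image_of_mem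
        simp only [T, Finset.mem_product]
        exact ⟨d1, d2, d3⟩
      · rw [hrep, hQ, ← hR']
        abel

/-- **Mordell-Weil** -/
theorem pt_fg [DecidableEq K] {e1 e2 e3 : K} (q12 : e1 ≠ e2) (q13 : e1 ≠ e3) (q23 : e2 ≠ e3) :
    AddGroup.FG (Pt e1 e2 e3) := by
  obtain ⟨C, hC0, hC⟩ := par_law q12 q13 q23
  obtain ⟨U, hU⟩ := descent_set q12 q13 q23
  have hN : Northcott (fun P : Pt e1 e2 e3 => ht P) := ⟨fun B => finite_ht B⟩
  refine AddCommGroup.fg_of_descent' (h := fun P : Pt e1 e2 e3 => ht P) (C := C) ?_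
    (fun P => ht_nonneg P) hC
  rw [AddSubgroup.finiteIndex_iff_finite_quotient]
  have hsurj : Function.Surjective (fun u : U =>
      (QuotientAddGroup.mk (s := (nsmulAddMonoidHom (α := Pt e1 e2 e3) 2).range) (u : Pt e1 e2 e3))) := by
    intro q
    obtain ⟨P, rfl⟩ := QuotientAddGroup.mk_surjective q
    obtain ⟨u, hu, Q, hQ⟩ := hU P
    refine ⟨⟨u, hu⟩, ?_⟩
    rw [QuotientAddGroup.eq]
    refine ⟨Q, ?_⟩
    rw [nsmulAddMonoidHom_apply, hQ, two_nsmul]
    simp
  exact Finite.of_surjective _ hsurj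

end Pool.Agent.H437R2.Man.MW
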