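import Mathlib

set_option autoImplicit false

namespace Pool.Agent.H437R2.Man

/-- The elliptic curve `y² = x³ + 1`. -/
def E1 (K : Type) [Field K] : WeierstrassCurve K := ⟨0, 0, 0, 0, 1⟩

end Pool.Agent.H437R2.Man
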