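import Mathlib
import Pool.Agent.H16.LA.S8.H437R2.Man.E1
import Pool.Agent.H16.LA.S8.H437R2.Man.MWWeak
import Pool.Agent.H16.LA.S8.H437R2.Man.MWCan

set_option autoImplicit false

open WeierstrassCurve Height

namespace Pool.Agent.H437R2.Man

namespace MW

theorem crv_embed {K : Type} [Field K] [NumberField K] [DecidableEq K] {e1 e2 e3 : K}
    (q12 : e1 ≠ e2) (q13 : e1 ≠ e3) (q23 : e2 ≠ e3) :
    ∃ (n : ℕ) (ψ : (crv e1 e2 e3).toAffine.Point →+ EuclideanSpace ℝ (Fin n)) (C : ℝ),
      ∀ P : (crv e1 e2 e3).toAffine.Point, |‖ψ P‖ ^ 2 - Height.logHeight P.xRep| ≤ C := by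
  obtain ⟨C, hC0, hC⟩ := par_law q12 q13 q23
  obtain ⟨q, C', hq1, hq2, hq3⟩ := canon (fun P : Pt e1 e2 e3 => ht P) C
    (fun P => ht_nonneg P) hC
  obtain ⟨n, ψ, hψ⟩ := embed (pt_fg q12 q13 q23) q hq2 hq3
  exact ⟨n, ψ, C', fun P => by rw [hψ P]; exact hq1 P⟩

end MW

/-- MW: Mordell-Weil + canonical height for `y² = x³ + 1` over a number field containing the
cube roots of unity, in the form of a homomorphism to a Euclidean space. -/
theorem mw_embed (K : Type) [Field K] [NumberField K] [DecidableEq K] (w : K)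
    (hw : w ^ 2 + w + 1 = 0) :
    ∃ (n : ℕ) (ψ : (E1 K).toAffine.Point →+ EuclideanSpace ℝ (Fin n)) (C : ℝ),
      ∀ P : (E1 K).toAffine.Point, |‖ψ P‖ ^ 2 - Height.logHeight P.xRep| ≤ C := by
  have h3 : w ^ 3 = 1 := by linear_combination (w - 1) * hw
  have hE : E1 K = MW.crv 1 w (w ^ 2) := by
    simp only [E1, MW.crv, WeierstrassCurve.mk.injEq, true_and]
    refine ⟨by linear_combination -hw, by linear_combination (-1 : K) * hw - h3, ?_⟩
    linear_combination -h3
  have h30 : (3 : K) ≠ 0 := by norm_num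
  have hw1 : (1 : K) ≠ w := by
    rintro rfl
    apply h30
    linear_combination hw
  have hw0 : w ≠ 0 := by
    rintro rfl
    norm_num at hw
  have hw2 : (1 : K) ≠ w ^ 2 := by
    intro h
    apply hw1
    have h4 : w * (w ^ 2 - 1) = 1 - w := by linear_combination h3
    have h5 : w ^ 2 - 1 = 0 := by rw [← h]; ring
    rw [h5, mul_zero] at h4
    linear_combination -h4
  have hw3 : w ≠ w ^ 2 := by
    intro h
    apply hw1
    have h4 : w * (w - 1) = 0 := by linear_combination -h
    rcases mul_eq_zero.mp h4 with h5 | h5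
    · exact absurd h5 hw0
    · linear_combination -h5
  rw [hE]
  exact MW.crv_embed hw1 hw2 hw3

end Pool.Agent.H437R2.Man
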